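import Pool.Agent.H31.DPD.Targets
import Pool.Agent.H3.DP.FO

/-!
Row BL of `dpd_modules`: removing a leading coefficient on the major arcs.
-/

set_option autoImplicit false

open Finset

namespace Pool.Agent.H40.DPD

open Pool.Agent.H31.DP Pool.Agent.H31.DPD
open Pool.Agent.H3.DP (ee_add norm_ee ee_int pf_FO)

theorem norm_ee_sub (x y : ℝ) : ‖ee x - ee y‖ ≤ 2 * Real.pi * |x - y| := by
  have h1 : ee x - ee y = ee y * (ee (x - y) - 1) := by
    have : ee x = ee y * ee (x - y) := by rw [← ee_add]; congr 1; ring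
    rw [this]; ring
  rw [h1, norm_mul, norm_ee, one_mul]
  have h2 : ee (x - y) = Complex.exp (Complex.I * ((2 * Real.pi * (x - y) : ℝ) : ℂ)) := by
    unfold ee
    congr 1
    push_cast
    ring
  rw [h2]
  refine (Real.norm_exp_I_mul_ofReal_sub_one_le).trans ?_
  rw [Real.norm_eq_abs, abs_mul, abs_of_pos (by positivity)]

/-- Abel summation. -/
theorem abel (b w : ℕ → ℂ) (N : ℕ) :
    ∑ n ∈ Finset.Icc 1 N, b n * w n = (∑ n ∈ Finset.Icc 1 N, b n) * w N -
      ∑ n ∈ Finset.range N, (∑ m ∈ Finset.Icc 1 n, b m) * (w (n + 1) - w n) := by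
  induction N with
  | zero => simp
  | succ N ih =>
    rw [Finset.sum_Icc_succ_top (by omega), ih, Finset.sum_Icc_succ_top (by omega),
      Finset.sum_range_succ]
    ring

theorem abel_bound (b w : ℕ → ℂ) (N : ℕ) (M V : ℝ) (hw : ‖w N‖ ≤ 1)
    (hV : ∑ n ∈ Finset.range N, ‖w (n + 1) - w n‖ ≤ V)
    (hM : ∀ k, k ≤ N → ‖∑ n ∈ Finset.Icc 1 k, b n‖ ≤ M) :
    ‖∑ n ∈ Finset.Icc 1 N, b n * w n‖ ≤ M * (1 + V) := by
  have hM0 : 0 ≤ M := (norm_nonneg _).trans (hM 0 (Nat.zero_le _))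
  rw [abel]
  refine (norm_sub_le _ _).trans ?_
  have h1 : ‖(∑ n ∈ Finset.Icc 1 N, b n) * w N‖ ≤ M * 1 := by
    rw [norm_mul]
    exact mul_le_mul (hM N le_rfl) hw (norm_nonneg _) hM0
  have h2 : ‖∑ n ∈ Finset.range N, (∑ m ∈ Finset.Icc 1 n, b m) * (w (n + 1) - w n)‖ ≤ M * V := by
    refine (norm_sum_le _ _).trans ?_
    refine le_trans (Finset.sum_le_sum (g := fun n => M * ‖w (n + 1) - w n‖) ?_) ?_
    · intro n hn
      rw [norm_mul]
      exact mul_le_mul_of_nonneg_right (hM n (Finset.mem_range.1 hn).le) (norm_nonneg _)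
    · rw [← Finset.mul_sum]
      exact mul_le_mul_of_nonneg_left hV hM0
  linarith

/-- The variation of `n -> ee (c n ^ (d+1))`. -/
theorem var_bound (c : ℝ) (d N : ℕ) :
    ∑ n ∈ Finset.range N, ‖ee (c * ((n + 1 : ℕ) : ℝ) ^ (d + 1)) - ee (c * (n : ℝ) ^ (d + 1))‖ ≤
      2 * Real.pi * (|c| * (N : ℝ) ^ (d + 1)) := by
  have h1 : ∀ n ∈ Finset.range N,
      ‖ee (c * ((n + 1 : ℕ) : ℝ) ^ (d + 1)) - ee (c * (n : ℝ) ^ (d + 1))‖ ≤
      2 * Real.pi * |c| * (((n + 1 : ℕ) : ℝ) ^ (d + 1) - (n : ℝ) ^ (d + 1)) := by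
    intro n _
    refine (norm_ee_sub _ _).trans ?_
    rw [← mul_sub, abs_mul]
    have h2 : (n : ℝ) ^ (d + 1) ≤ ((n + 1 : ℕ) : ℝ) ^ (d + 1) := by
      apply pow_le_pow_left₀ (Nat.cast_nonneg n)
      push_cast; linarith
    rw [abs_of_nonneg (sub_nonneg.2 h2)]
    apply le_of_eq
    ring
  refine (Finset.sum_le_sum h1).trans ?_
  rw [← Finset.mul_sum, Finset.sum_range_sub (fun n : ℕ => (n : ℝ) ^ (d + 1))]
  apply le_of_eq
  push_cast
  ring

/-- Changing the end of a sum. -/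
theorem end_change (F : ℕ → ℂ) (hF : ∀ n, ‖F n‖ ≤ 1) (m k : ℕ) (h : m ≤ k) :
    ‖∑ n ∈ Finset.Icc 1 k, F n‖ ≤ ‖∑ n ∈ Finset.Icc 1 m, F n‖ + ((k : ℝ) - m) := by
  have h1 : ∑ n ∈ Finset.Icc 1 k, F n = ∑ n ∈ Finset.Icc 1 m, F n + ∑ n ∈ Finset.Ioc m k, F n := by
    have := Finset.sum_Ioc_consecutive F (Nat.zero_le m) h
    have h2 : ∀ j : ℕ, Finset.Icc 1 j = Finset.Ioc 0 j := fun j => rfl
    rw [h2, h2, this]
  rw [h1]
  refine (norm_add_le _ _).trans ?_
  have h2 : ‖∑ n ∈ Finset.Ioc m k, F n‖ ≤ (k : ℝ) - m := by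
    refine (norm_sum_le _ _).trans ?_
    refine (Finset.sum_le_sum (fun n _ => hF n)).trans ?_
    rw [Finset.sum_const, Nat.card_Ioc, nsmul_eq_mul, mul_one, Nat.cast_sub h]
  linarith

theorem pf_BL : P_BL := by
  intro d L ε hε
  have hC : (0 : ℝ) < 1 + 2 * Real.pi * L := by positivity
  set ε₁ : ℝ := ε / ((1 + 2 * Real.pi * L) * (L + 1)) with hε₁
  have hε₁0 : 0 < ε₁ := by positivity
  set J : ℕ := ⌈4 / ε₁⌉₊ + 1 with hJ
  refine ⟨J, J, ε₁ / 4, Nat.succ_pos _, by positivity, ?_⟩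
  have hJ4 : 4 / ε₁ ≤ J := by
    refine (Nat.le_ceil _).trans ?_
    rw [hJ]; push_cast; linarith
  have hJ0 : (0 : ℝ) < J := by
    have : 0 < J := Nat.succ_pos _
    exact_mod_cast this
  intro f N q a P hf hN hq hqL _ hmaj hbig
  have hN0 : 0 < N := lt_of_lt_of_le (Nat.succ_pos _) hN
  have hN0' : (0 : ℝ) < N := by exact_mod_cast hN0
  have hq0 : (0 : ℝ) < q := by exact_mod_cast hq
  have hq1 : (1 : ℝ) ≤ q := by exact_mod_cast hq
  have hqL' : (q : ℝ) ≤ L := by exact_mod_cast hqL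
  set α : ℝ := P.coeff (d + 1) with hα
  set η : ℝ := (q : ℝ) * α - a with hη
  set g : ℕ → ℂ := fun n => f n * ee ((P.erase (d + 1)).eval (n : ℝ)) with hg
  set u : ℕ → ℂ := fun n => ee ((a : ℝ) * (n : ℝ) ^ (d + 1) / q) with hu
  set w : ℕ → ℂ := fun n => ee (η / q * (n : ℝ) ^ (d + 1)) with hw
  have hgn : ∀ n, ‖g n‖ ≤ 1 := by
    intro n
    rw [hg]
    simp only
    rw [norm_mul, norm_ee, mul_one]
    exact hf n
  -- factorisation
  have hfac : ∀ n : ℕ, f n * ee (P.eval (n : ℝ)) = g n * u n * w n := by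
    intro n
    have h1 : P.eval (n : ℝ) = (P.erase (d + 1)).eval (n : ℝ) +
        ((a : ℝ) * (n : ℝ) ^ (d + 1) / q + η / q * (n : ℝ) ^ (d + 1)) := by
      conv_lhs => rw [← Polynomial.monomial_add_erase P (d + 1)]
      rw [Polynomial.eval_add, Polynomial.eval_monomial, ← hα]
      have h2 : α = a / q + η / q := by rw [hη]; field_simp; ring
      rw [h2]
      ring
    rw [h1, ee_add, ee_add, hg, hu, hw]
    simp only
    ring
  -- Abel summation
  obtain ⟨k₁, hk₁, hbk⟩ : ∃ k₁, k₁ ≤ N ∧ ε * N / (1 + 2 * Real.pi * L) <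
      ‖∑ n ∈ Finset.Icc 1 k₁, g n * u n‖ := by
    by_contra hcon
    push Not at hcon
    have hV : ∑ n ∈ Finset.range N, ‖w (n + 1) - w n‖ ≤ 2 * Real.pi * L := by
      refine (var_bound (η / q) d N).trans ?_
      have h3 : |η / q| * (N : ℝ) ^ (d + 1) ≤ L := by
        rw [abs_div, abs_of_pos hq0]
        have h4 : |η| / q ≤ |η| := div_le_self (abs_nonneg _) hq1
        have h5 : (N : ℝ) ^ (d + 1) * |η| < L := hmaj
        have h6 : |η| / q * (N : ℝ) ^ (d + 1) ≤ |η| * (N : ℝ) ^ (d + 1) :=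
          mul_le_mul_of_nonneg_right h4 (by positivity)
        linarith
      exact mul_le_mul_of_nonneg_left h3 (by positivity)
    have h7 := abel_bound (fun n => g n * u n) w N (ε * N / (1 + 2 * Real.pi * L))
      (2 * Real.pi * L) (by rw [hw]; simp only; rw [norm_ee]) hV hcon
    have h8 : ε * N / (1 + 2 * Real.pi * L) * (1 + 2 * Real.pi * L) = ε * N := by
      field_simp
    rw [h8] at h7
    have h9 : ∑ n ∈ Finset.Icc 1 N, f n * ee (P.eval (n : ℝ)) =
        ∑ n ∈ Finset.Icc 1 N, g n * u n * w n := Finset.sum_congr rfl fun n _ => hfac n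
    rw [h9] at hbig
    exact absurd hbig (not_lt.2 h7)
  -- the periodic weight
  have hup : ∀ n, u (n + q) = u n := by
    intro n
    rw [hu]
    simp only
    obtain ⟨c, hc⟩ : (q : ℤ) ∣ ((n : ℤ) + q) ^ (d + 1) - (n : ℤ) ^ (d + 1) := by
      have h1 := sub_dvd_pow_sub_pow ((n : ℤ) + q) (n : ℤ) (d + 1)
      rwa [add_sub_cancel_left] at h1
    have h2 : ((n : ℝ) + q) ^ (d + 1) = (n : ℝ) ^ (d + 1) + q * c := by
      have : ((n : ℤ) + q) ^ (d + 1) = (n : ℤ) ^ (d + 1) + q * c := by linarith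
      exact_mod_cast this
    have h3 : (a : ℝ) * ((n + q : ℕ) : ℝ) ^ (d + 1) / q =
        (a : ℝ) * (n : ℝ) ^ (d + 1) / q + ((a * c : ℤ) : ℝ) := by
      push_cast
      rw [h2]
      field_simp
    rw [h3, ee_add, ee_int, mul_one]
  obtain ⟨k, hk, hkb⟩ : ∃ k, k < q ∧ ε₁ * N < ‖∑ n ∈ Finset.Icc 1 k₁, g n * ee (n * (0 + k / q))‖ := by
    by_contra hcon
    push Not at hcon
    have h1 := pf_FO.1 g u q k₁ (ε₁ * N) 0 hq hup (fun n => by rw [hu]; simp only; rw [norm_ee]) hcon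
    have h2 : ∑ n ∈ Finset.Icc 1 k₁, g n * u n * ee (n * (0 : ℝ)) =
        ∑ n ∈ Finset.Icc 1 k₁, g n * u n := by
      refine Finset.sum_congr rfl fun n _ => ?_
      have h3 : ee ((n : ℝ) * 0) = 1 := by
        rw [mul_zero]
        have := ee_int 0
        simpa using this
      rw [h3, mul_one]
    rw [h2] at h1
    have h4 : (q : ℝ) * (ε₁ * N) ≤ ε * N / (1 + 2 * Real.pi * L) := by
      rw [hε₁]
      have h5 : (q : ℝ) * (ε / ((1 + 2 * Real.pi * L) * (L + 1)) * N) =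
          (ε * N / (1 + 2 * Real.pi * L)) * (q / (L + 1)) := by
        field_simp
      rw [h5]
      have h6 : (q : ℝ) / (L + 1) ≤ 1 := by
        rw [div_le_one (by positivity)]
        linarith
      exact mul_le_of_le_one_right (by positivity) h6
    linarith
  -- the grid
  refine ⟨k₁ * J / N, k, ?_, hk, ?_⟩
  · have h1 : k₁ * J / N ≤ N * J / N := Nat.div_le_div_right (Nat.mul_le_mul_right J hk₁)
    rwa [Nat.mul_div_cancel_left _ hN0] at h1
  set i : ℕ := k₁ * J / N with hi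
  set m : ℕ := i * N / J with hm
  have hiN : i * N ≤ k₁ * J := Nat.div_mul_le_self _ _
  have hmk : m ≤ k₁ := by
    rw [hm]
    apply Nat.div_le_of_le_mul
    rw [mul_comm J k₁]
    exact hiN
  have hdiff : (k₁ : ℝ) - m ≤ N / J + 1 := by
    have hJn : 0 < J := by exact_mod_cast hJ0
    have h1 : k₁ * J < (i + 1) * N := by
      have h2 := Nat.lt_mul_div_succ (k₁ * J) hN0
      rw [hi, mul_comm _ N]
      exact h2
    have h3 : i * N < (m + 1) * J := by
      have h2 := Nat.lt_mul_div_succ (i * N) hJn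
      rw [hm, mul_comm _ J]
      exact h2
    have h1' : (k₁ : ℝ) * J < (i + 1) * N := by exact_mod_cast h1
    have h3' : (i : ℝ) * N < (m + 1) * J := by exact_mod_cast h3
    have h4 : ((k₁ : ℝ) - m) * J ≤ (N / J + 1) * J := by
      have h5 : ((N : ℝ) / J + 1) * J = N + J := by field_simp
      rw [h5]
      nlinarith
    exact le_of_mul_le_mul_right h4 hJ0
  have hF : ∀ n : ℕ, f n * ee ((P.erase (d + 1) + Polynomial.C ((k : ℝ) / q) *
      Polynomial.X).eval (n : ℝ)) = g n * ee (n * (0 + k / q)) := by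
    intro n
    rw [Polynomial.eval_add, Polynomial.eval_mul, Polynomial.eval_C, Polynomial.eval_X, ee_add, hg]
    simp only
    rw [mul_assoc]
    congr 3
    ring
  rw [Finset.sum_congr rfl fun n _ => hF n]
  have h10 := end_change (fun n => g n * ee (n * (0 + k / q)))
    (fun n => by rw [norm_mul, norm_ee, mul_one]; exact hgn n) m k₁ hmk
  have h11 : (N : ℝ) / J ≤ ε₁ * N / 4 := by
    rw [div_le_iff₀ hJ0]
    have h12 : 4 ≤ ε₁ * J := by
      rw [div_le_iff₀ hε₁0] at hJ4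
      linarith
    nlinarith
  have h13 : (1 : ℝ) ≤ ε₁ * N / 4 := by
    have h14 : (J : ℝ) ≤ N := by exact_mod_cast hN
    have h12 : 4 ≤ ε₁ * J := by
      rw [div_le_iff₀ hε₁0] at hJ4
      linarith
    nlinarith
  have h15 : 0 < ε₁ * N := by positivity
  linarith

end Pool.Agent.H40.DPD
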